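import Pool.Agent.H829D.Fn

/-!
# The free energy of self-avoiding walks with weak attraction exists on `ℤ²` and `ℤ³`

`Z_n(β)` is the sum of `exp (β · number of contacts)` over the `n`-step self-avoiding walks.  For
`d = 2` and `d = 3` there is `β₀ > 0` such that for `0 < β ≤ β₀` one has
`Z_(p+q)(β) ≤ K Z_p(β) Z_q(β)`, so the limit of `(1/n) log Z_n(β)` exists.
-/

set_option autoImplicit false

namespace Pool.Agent.Results.MP_86995c_pr.WeakAttraction

open Filter Topology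

/-- the self-avoiding walks on `ℤ^d` with `n` steps from the origin -/
def walks (d n : ℕ) : Set (Fin (n + 1) → (Fin d → ℤ)) :=
  {w | w 0 = 0 ∧ Function.Injective w ∧ ∀ i : Fin n, ∑ k : Fin d, |w i.succ k - w i.castSucc k| = 1}

/-- the number of contacts: pairs of sites at distance `1` which are not consecutive -/
noncomputable def contacts {d n : ℕ} (w : Fin (n + 1) → (Fin d → ℤ)) : ℕ :=
  Set.ncard {p : Fin (n + 1) × Fin (n + 1) | p.1.val + 1 < p.2.val ∧
    ∑ k : Fin d, |w p.1 k - w p.2 k| = 1}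

/-- the partition function `Z_n(β)` -/
noncomputable def Z (d n : ℕ) (β : ℝ) : ℝ := ∑ᶠ w ∈ walks d n, Real.exp (β * contacts w)

/-- **The free energy exists for weak attraction on `ℤ²` and `ℤ³`.** For `d = 2` and for `d = 3`
there are `β₀ > 0` and `K` such that for all `0 < β ≤ β₀`: `Z_(p+q)(β) ≤ K Z_p(β) Z_q(β)` for all
`p`, `q`, the limit `F(β)` of `(1/n) log Z_n(β)` exists, and `exp (F(β) n) ≤ K Z_n(β)` for all
`n`. -/
theorem result : ∀ d : ℕ, d = 2 ∨ d = 3 → ∃ β₀ : ℝ, 0 < β₀ ∧ ∃ K : ℝ, ∀ β : ℝ, 0 < β → β ≤ β₀ →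
    (∀ p q : ℕ, Z d (p + q) β ≤ K * (Z d p β * Z d q β)) ∧
      ∃ F : ℝ, Tendsto (fun n : ℕ => 1 / (n : ℝ) * Real.log (Z d n β)) atTop (𝓝 F) ∧
        ∀ n : ℕ, Real.exp (F * n) ≤ K * Z d n β := by
  rintro d (rfl | rfl)
  · obtain ⟨β₀, h0, K, -, h⟩ := H829D.main H829D.good2 (0 : Fin 4)
    exact ⟨β₀, h0, K, h⟩
  · obtain ⟨β₀, h0, K, -, h⟩ := H829D.main H829D.good3 (0 : Fin 6)
    exact ⟨β₀, h0, K, h⟩

end Pool.Agent.Results.MP_86995c_pr.WeakAttraction
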